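import Pool.Agent.ANI.Stmts

/-!
# Row WHM of tank ANI
-/

set_option autoImplicit false

open MeasureTheory ProbabilityTheory Function Filter

open scoped ENNReal BigOperators Topology NNReal ComplexOrder Matrix

noncomputable section

namespace Pool.Agent.ANI.H13

open Pool.Agent.Anderson hiding box mem_box card_box
open Pool.Agent.Loc Pool.Agent.Mob Pool.Agent.Helper54.Bal
  Pool.Agent.Helper96.EXP Pool.Agent.BED
open Pool.Agent.LE Pool.Agent.LE.MN Pool.Agent.LE.CL Pool.Agent.LE.IR Pool.Agent.LE.QD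
  Pool.Agent.LE.QF Pool.Agent.ANI

variable {d M : ℕ} [NeZero M]

theorem ec_norm (p x : Tor d M) : ‖ec p x‖ = 1 := by
  unfold ec
  rw [norm_prod]
  apply Finset.prod_eq_one
  intro i _
  exact AddChar.norm_apply _ _

theorem ec_zero (x : Tor d M) : ec (0 : Tor d M) x = 1 := by
  unfold ec
  apply Finset.prod_eq_one
  intro i _
  simp

theorem kf_abs (z : ℂ) (p : Tor d M) : |kf z p| ≤ kf z (0 : Tor d M) := by
  unfold kf
  refine (Finset.abs_sum_le_sum_abs _ _).trans (Finset.sum_le_sum fun x _ => ?_)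
  rw [ec_zero, abs_mul]
  have h0 : 0 ≤ kk z x := by
    unfold kk
    positivity
  rw [abs_of_nonneg h0, Complex.one_re]
  apply mul_le_mul_of_nonneg_left _ h0
  exact (Complex.abs_re_le_norm _).trans (ec_norm p x).le

theorem whm (hF : FmuStmt) (hK : KftStmt) : WhmStmt := by
  intro d M _ E η T t m ζ hζ hη hT ht hm hG
  have him : ζ.im = η + T * m.im := by
    rw [hζ]
    simp
  have hzp : 0 < ζ.im := by
    rw [him]
    positivity
  obtain ⟨_, _, _, hKK, hev, hk0⟩ := hK d M ζ hzp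
  have hk0' : kf ζ (0 : Tor d M) = m.im / ζ.im := by rw [hk0, hG]
  have hlt : T * kf ζ (0 : Tor d M) < 1 := by
    rw [hk0', ← mul_div_assoc, div_lt_one hzp, him]
    linarith
  have hpos : ∀ p : Tor d M, 0 < 1 - T * kf ζ p := by
    intro p
    have h1 := (abs_le.1 (kf_abs ζ p)).2
    have h2 : T * kf ζ p ≤ T * kf ζ (0 : Tor d M) := mul_le_mul_of_nonneg_left h1 hT.le
    linarith
  have hn0 : ∀ p : Tor d M, n0 ζ T (-p) = n0 ζ T p := by
    intro p
    unfold n0
    rw [hev]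
  have hn1 : ∀ p : Tor d M, n1 ζ T t (-p) = n1 ζ T t p := by
    intro p
    unfold n1
    rw [hn0]
  have hn1p : ∀ p : Tor d M, 0 ≤ n1 ζ T t p := by
    intro p
    unfold n1
    split_ifs with h
    · exact ht.trans h.le
    · exact le_refl _
  have hcmp : ∀ p : Tor d M, n0 ζ T p ≤ t + n1 ζ T t p := by
    intro p
    unfold n1
    split_ifs with h
    · linarith
    · linarith [not_lt.1 h]
  refine ⟨?_, ?_, ?_⟩
  · rw [hKK]
    obtain ⟨_, _, f3, _, _, _, _⟩ := hF d M (kf ζ) (n0 ζ T) hev hn0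
    have hg : ∀ p : Tor d M, (fun p => kf ζ p * n0 ζ T p) (-p) = (fun p => kf ζ p * n0 ζ T p) p := by
      intro p
      simp only [hev, hn0]
    have hg' : ∀ p : Tor d M, (fun p => -T * (kf ζ p * n0 ζ T p)) (-p) =
        (fun p => -T * (kf ζ p * n0 ζ T p)) p := by
      intro p
      simp only [hev, hn0]
    obtain ⟨_, _, _, _, g5, _, _⟩ := hF d M (fun p => kf ζ p * n0 ζ T p) (n0 ζ T) hg hn0
    obtain ⟨_, _, _, e4, _, _, _⟩ := hF d M (n0 ζ T) (fun p => -T * (kf ζ p * n0 ζ T p)) hn0 hg'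
    have h1 : (1 - T • mlt (kf ζ)) * mlt (n0 ζ T) =
        mlt (n0 ζ T) + (-T) • mlt (fun p : Tor d M => kf ζ p * n0 ζ T p) := by
      rw [Matrix.sub_mul, Matrix.one_mul, Matrix.smul_mul, f3, neg_smul, sub_eq_add_neg]
    rw [h1, ← g5 (-T), ← e4]
    congr 1
    funext p
    unfold n0
    have := (hpos p).ne'
    calc kf ζ p / (1 - T * kf ζ p) + -T * (kf ζ p * (kf ζ p / (1 - T * kf ζ p)))
        = kf ζ p / (1 - T * kf ζ p) * (1 - T * kf ζ p) := by ring
      _ = kf ζ p := div_mul_cancel₀ _ this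
  · intro f
    obtain ⟨a1, _, _, _, _, _, _⟩ := hF d M (n1 ζ T t) (n0 ζ T) hn1 hn0
    obtain ⟨b1, _, _, _, _, _, _⟩ := hF d M (n0 ζ T) (n0 ζ T) hn0 hn0
    obtain ⟨c1, _, _, _, _, c6, _⟩ := hF d M (fun _ => 1) (n0 ζ T) (fun _ => rfl) hn0
    have hMp : (0 : ℝ) < (M : ℝ) ^ d := by
      have : (0 : ℝ) < M := by exact_mod_cast Nat.pos_of_ne_zero (NeZero.ne M)
      positivity
    refine ⟨?_, ?_⟩
    · rw [a1]
      unfold pm
      apply div_nonneg _ hMp.le
      apply Finset.sum_nonneg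
      intro p _
      exact mul_nonneg (hn1p p) (by positivity)
    · have h1 : ∑ x, f x ^ 2 = pm fun p : Tor d M => 1 * ‖ft (fun x => (f x : ℂ)) p‖ ^ 2 := by
        rw [← c1 f, c6]
        unfold QF.qf
        apply Finset.sum_congr rfl
        intro x _
        rw [Matrix.one_mulVec, sq]
      rw [b1, a1, h1]
      unfold pm
      rw [mul_div_assoc', ← add_div]
      apply div_le_div_of_nonneg_right _ hMp.le
      rw [Finset.mul_sum, ← Finset.sum_add_distrib]
      apply Finset.sum_le_sum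
      intro p _
      have h2 := mul_le_mul_of_nonneg_right (hcmp p)
        (show (0 : ℝ) ≤ ‖ft (fun x => (f x : ℂ)) p‖ ^ 2 by positivity)
      linarith [h2]
  · intro x y
    obtain ⟨_, a2, _, _, _, _, _, a8, _⟩ := hF d M (n1 ζ T t) (n0 ζ T) hn1 hn0
    exact ⟨a2 x y, a8 x⟩

end Pool.Agent.ANI.H13
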